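import Pool.Agent.Lib.MP_144d21_co.PSI.H33.Trans
import Pool.Agent.Lib.MP_144d21_co.PSI.H41.Psim
import Pool.Agent.Lib.MP_144d21_co.PSI.H47.KCOMP
import Pool.Agent.Lib.MP_144d21_co.PSI.H47.LEX
import Pool.Agent.Lib.MP_144d21_co.PSI.H49.Dim
import Pool.Agent.Lib.MP_144d21_co.PSI.H49.Van
import Pool.Agent.Lib.MP_144d21_co.PSI.H50.Dualf
import Pool.Agent.Lib.MP_144d21_co.PSI.H50.Ext
import Pool.Agent.Lib.MP_144d21_co.PSI.H70.Local
import Pool.Agent.Lib.MP_144d21_co.PSI.H70.Vtx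
import Pool.Agent.Lib.MP_144d21_co.PSI.H84.Frame
import Pool.Agent.Lib.MP_144d21_co.PSI.H86.Count
import Pool.Agent.Lib.MP_144d21_co.PSI.H86.Cube
import Pool.Agent.Lib.MP_144d21_co.PSI.H89.Drop
import Pool.Agent.Lib.MP_144d21_co.PSI.H93.Switch
import Pool.Agent.Lib.MP_144d21_co.PSI.H97.Deg
import Pool.Agent.Lib.MP_144d21_co.PSI.H97.Subc
import Pool.Agent.Lib.MP_144d21_co.PSI.H98.Kdim

/-!
# MP_144d21_co, PSI: the weighted count of 4-colourings, all modules together
-/

set_option autoImplicit false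

namespace Pool.Agent.Xu

/-- the weighted count of the proper 4-colourings of a connected graph -/
theorem psi_all : PsimS :=
  H41.psim (H49.dim (H49.van (H70.locl H97.subc H86.cube H47.lex) H97.subc H97.deg))
    H86.count (H84.frame H50.dualf H70.vtx H89.drop H50.ext) H47.kcomp H93.switch H98.kdim
    (H33.trans H47.kcomp)

end Pool.Agent.Xu
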