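import Pool.Agent.Lib.MP_144d21_co.XU.Base

/-!
# MP_144d21_co, project XU3, part PSI: the weighted count of 4-colourings. Definitions.
See Blueprint.md in this folder.
-/

set_option autoImplicit false

namespace Pool.Agent.Xu

open Finset Polynomial

/-! ### 1. Polynomials -/

section
variable {R σ τ : Type} [CommRing R]

/-- affine substitution `x_v = γ_v + ∑_k B_vk y_k` -/
noncomputable def sbt [Fintype τ] (γ : σ → R) (B : Matrix σ τ R) :
    MvPolynomial σ R →ₐ[R] MvPolynomial τ R :=
  MvPolynomial.aeval fun v =>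
    MvPolynomial.C (γ v) + ∑ k, MvPolynomial.C (B v k) * MvPolynomial.X k

/-- `P` vanishes to order at least `j` at the origin -/
def Ord (j : ℕ) (P : MvPolynomial σ R) : Prop :=
  ∀ m : σ →₀ ℕ, m.degree < j → P.coeff m = 0

/-- `a` is smaller than `b` in the lexicographic order (first index first) -/
def Lx {n : ℕ} (a b : Fin n →₀ ℕ) : Prop := ∃ i, (∀ l < i, a l = b l) ∧ a i < b i

/-- `a` is the lexicographically smallest monomial in the part of degree `j` of `P` -/
def Low {n : ℕ} (j : ℕ) (P : MvPolynomial (Fin n) R) (a : Fin n →₀ ℕ) : Prop :=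
  a.degree = j ∧ ∀ b : Fin n →₀ ℕ, b.degree = j → P.coeff b ≠ 0 → b ≠ a → Lx a b

end

/-- degree bound: the coefficient of `x^m` has degree at most `D - |m|` in the variable `t` -/
def DB {F σ : Type} [Field F] (D : ℕ) (P : MvPolynomial σ F[X]) : Prop :=
  ∀ (m : σ →₀ ℕ) (e : ℕ), D < m.degree + e → (P.coeff m).coeff e = 0

/-- the pairs `(a, e)` with `∑ β_k a_k ≤ e ≤ D - |a|` -/
noncomputable def AA (n : ℕ) (β : Fin n → ℕ) (D : ℕ) : Finset ((Fin n → ℕ) × ℕ) :=
  ((Fintype.piFinset fun _ : Fin n => range (D + 1)) ×ˢ range (D + 1)).filter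
    fun x => ∑ k, β k * x.1 k ≤ x.2 ∧ x.2 + ∑ k, x.1 k ≤ D

theorem mem_AA {n : ℕ} {β : Fin n → ℕ} {D : ℕ} {x : (Fin n → ℕ) × ℕ} :
    x ∈ AA n β D ↔ ∑ k, β k * x.1 k ≤ x.2 ∧ x.2 + ∑ k, x.1 k ≤ D := by
  unfold AA
  rw [mem_filter, mem_product, Fintype.mem_piFinset, mem_range]
  refine and_iff_right_of_imp ?_
  rintro ⟨-, h⟩
  refine ⟨fun k => ?_, by omega⟩
  have := single_le_sum (f := x.1) (fun i _ => Nat.zero_le _) (mem_univ k)
  rw [mem_range]
  omega

/-! ### 2. Relations -/

/-- relations between the vectors `w D`, with coefficient `0` on `Z` -/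
def Rel {F K V : Type} [Field F] [Fintype K] (w : K → V → F) (Z : Finset K) :
    Submodule F (K → F) where
  carrier := {x | (∀ D ∈ Z, x D = 0) ∧ ∀ v, ∑ D, x D * w D v = 0}
  add_mem' := by
    rintro x y ⟨h1, h2⟩ ⟨h3, h4⟩
    refine ⟨fun D hD => by rw [Pi.add_apply, h1 D hD, h3 D hD, add_zero], fun v => ?_⟩
    simp only [Pi.add_apply, add_mul, sum_add_distrib, h2 v, h4 v, add_zero]
  zero_mem' := ⟨fun D _ => rfl, fun v => by simp⟩
  smul_mem' := by
    rintro r x ⟨h1, h2⟩
    refine ⟨fun D hD => by rw [Pi.smul_apply, h1 D hD, smul_zero], fun v => ?_⟩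
    have : ∑ D, (r • x) D * w D v = r * ∑ D, x D * w D v := by
      rw [mul_sum]
      exact sum_congr rfl fun D _ => by rw [Pi.smul_apply, smul_eq_mul]; ring
    rw [this, h2 v, mul_zero]

/-- the `D` with `w D v ≠ 0` -/
noncomputable def inc {F K V : Type} [Field F] [Fintype K] (w : K → V → F) (v : V) :
    Finset K := by
  classical
  exact univ.filter fun D => w D v ≠ 0

theorem mem_inc {F K V : Type} [Field F] [Fintype K] {w : K → V → F} {v : V} {D : K} :
    D ∈ inc w v ↔ w D v ≠ 0 := by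
  classical
  unfold inc
  rw [mem_filter]
  exact and_iff_right (mem_univ D)

/-! ### 3. Motions of a 4-coloured graph -/

section
variable {V : Type} [Fintype V] [DecidableEq V]

/-- the motions of `G[S]` in space, the colours placed at the vertices of a simplex: `x v b` is the
component of the velocity of `v` in the direction of the edge `c v, b` of the simplex -/
def M3 (F : Type) [Field F] (G : SimpleGraph V) (S : Finset V) (c : V → ℕ) :
    Submodule F (V → Fin 4 → F) where
  carrier := {x | (∀ v, v ∉ S → ∀ b, x v b = 0) ∧ (∀ v (b : Fin 4), c v = b → x v b = 0) ∧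
    ∀ u ∈ S, ∀ v ∈ S, G.Adj u v → ∀ a b : Fin 4, c u = a → c v = b → x u b + x v a = 0}
  add_mem' := by
    rintro x y ⟨h1, h2, h3⟩ ⟨h4, h5, h6⟩
    refine ⟨fun v hv b => ?_, fun v b hb => ?_, fun u hu v hv h a b ha hb => ?_⟩
    · simp only [Pi.add_apply, h1 v hv b, h4 v hv b, add_zero]
    · simp only [Pi.add_apply, h2 v b hb, h5 v b hb, add_zero]
    · have e1 := h3 u hu v hv h a b ha hb
      have e2 := h6 u hu v hv h a b ha hb
      simp only [Pi.add_apply]
      linear_combination e1 + e2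
  zero_mem' := ⟨fun _ _ _ => rfl, fun _ _ _ => rfl, fun _ _ _ _ _ _ _ _ _ => by simp⟩
  smul_mem' := by
    rintro r x ⟨h1, h2, h3⟩
    refine ⟨fun v hv b => ?_, fun v b hb => ?_, fun u hu v hv h a b ha hb => ?_⟩
    · simp only [Pi.smul_apply, h1 v hv b, smul_zero]
    · simp only [Pi.smul_apply, h2 v b hb, smul_zero]
    · have e1 := h3 u hu v hv h a b ha hb
      simp only [Pi.smul_apply, smul_eq_mul]
      linear_combination r * e1

/-- the motions of `G[S]` in the plane, the colours placed at four points in general position -/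
def M2 (F : Type) [Field F] (G : SimpleGraph V) (S : Finset V) (c : V → ℕ) :
    Submodule F (V → Fin 4 → F) where
  carrier := {x | x ∈ M3 F G S c ∧ ∀ v, ∑ b, x v b = 0}
  add_mem' := by
    rintro x y ⟨h1, h2⟩ ⟨h4, h5⟩
    refine ⟨add_mem h1 h4, fun v => ?_⟩
    simp only [Pi.add_apply, sum_add_distrib, h2 v, h5 v, add_zero]
  zero_mem' := ⟨zero_mem _, fun v => by simp⟩
  smul_mem' := by
    rintro r x ⟨h1, h2⟩
    refine ⟨(M3 F G S c).smul_mem r h1, fun v => ?_⟩
    simp only [Pi.smul_apply, ← smul_sum, h2 v, smul_zero]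

/-- dimension of the space of spatial motions -/
noncomputable def D3 (G : SimpleGraph V) (S : Finset V) (c : V → ℕ) : ℕ :=
  Module.finrank ℝ (M3 ℝ G S c)

/-- dimension of the space of planar motions -/
noncomputable def D2 (G : SimpleGraph V) (S : Finset V) (c : V → ℕ) : ℕ :=
  Module.finrank ℝ (M2 ℝ G S c)

/-! ### 4. Kempe components and lines -/

/-- `D` is a Kempe component of the colours `i`, `j` -/
structure IsComp (G : SimpleGraph V) (S : Finset V) (c : V → ℕ) (i j : ℕ) (D : Finset V) :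
    Prop where
  sub : D ⊆ S
  col : ∀ v ∈ D, c v = i ∨ c v = j
  conn : Conn G D
  closed : ∀ u ∈ D, ∀ v ∈ S, (c v = i ∨ c v = j) → G.Adj u v → v ∈ D

/-- the type of the Kempe components: pairs of colours and components -/
def KC (G : SimpleGraph V) (S : Finset V) (c : V → ℕ) : Type :=
  {x : (ℕ × ℕ) × Finset V // x.1 ∈ prs ∧ IsComp G S c x.1.1 x.1.2 x.2}

noncomputable instance (G : SimpleGraph V) (S : Finset V) (c : V → ℕ) : Fintype (KC G S c) := by
  classical
  have : Finite (KC G S c) := by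
    refine Finite.of_injective
      (fun x : KC G S c => ((⟨x.1.1, x.2.1⟩ : {s // s ∈ prs}), x.1.2)) ?_
    rintro ⟨⟨s, D⟩, h⟩ ⟨⟨s', D'⟩, h'⟩ e
    simp only [Prod.mk.injEq, Subtype.mk.injEq] at e
    obtain ⟨rfl, rfl⟩ := e
    rfl
  exact Fintype.ofFinite _

noncomputable instance (G : SimpleGraph V) (S : Finset V) (c : V → ℕ) :
    DecidableEq (KC G S c) := Classical.decEq _

/-- the vector of a Kempe component: `1` on the vertices of colour `i`, `-1` on the vertices of
colour `j` (`i < j`) -/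
noncomputable def wv (F : Type) [Field F] {G : SimpleGraph V} {S : Finset V} {c : V → ℕ}
    (x : KC G S c) : V → F := fun v =>
  if v ∈ x.1.2 then (if c v = x.1.1.1 then 1 else -1) else 0

/-- the abscissas -/
def xs (i : ℕ) : ℝ := if i = 0 then 0 else if i = 1 then 1 else if i = 2 then 3 else 7

/-- the line of a colouring: colour `i` is the linear function `x_i^2 - x_i t` -/
noncomputable def gam (c : V → ℕ) : V → ℝ[X] := fun v => C (xs (c v) ^ 2) - C (xs (c v)) * X

end

end Pool.Agent.Xu
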