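import Pool.Agent.Lib.MP_144d21_co.PSI.Base

/-!
# MP_144d21_co, project XU3, part PSI: module statements. Proofs in Blueprint.md in this folder.
-/

set_option autoImplicit false

namespace Pool.Agent.Xu

open Finset Polynomial

/-! ### 1. Polynomials -/

/-- SUBC: composition of substitutions, the identity, linear substitutions preserve the order -/
def SubcS : Prop := ∀ (R : Type) [CommRing R] (σ τ υ : Type) [Fintype τ] [Fintype υ],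
  (∀ (γ : σ → R) (B : Matrix σ τ R) (δ : τ → R) (M : Matrix τ υ R) (P : MvPolynomial σ R),
    sbt δ M (sbt γ B P) = sbt (fun v => γ v + ∑ k, B v k * δ k) (B * M) P) ∧
  (∀ [DecidableEq τ] (P : MvPolynomial τ R), sbt 0 (1 : Matrix τ τ R) P = P) ∧
  (∀ (j : ℕ) (M : Matrix σ τ R) (P : MvPolynomial σ R), Ord j P → Ord j (sbt 0 M P))

/-- CUBE -/
def CubeS : Prop := ∀ (R : Type) [CommRing R] [IsDomain R] (n j : ℕ) (d : R) (I : Finset (Fin n))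
  (P : MvPolynomial (Fin n) R), d ≠ 0 →
  (∀ T ⊆ I, Ord j (sbt (fun k => if k ∈ T then d else 0) (1 : Matrix (Fin n) (Fin n) R) P)) →
  ∀ a : Fin n →₀ ℕ, a.degree = j → d ^ (∑ k ∈ I, a k) ∣ P.coeff a

/-- LEX: a triangular substitution multiplies the lexicographically smallest coefficient by the
diagonal -/
def LexS : Prop := ∀ (R : Type) [CommRing R] (n j : ℕ) (M : Matrix (Fin n) (Fin n) R)
  (P : MvPolynomial (Fin n) R) (a : Fin n →₀ ℕ), (∀ k i, k < i → M k i = 0) → Ord j P →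
  Low j P a → (sbt 0 M P).coeff a = (∏ k, M k k ^ a k) * P.coeff a

/-- DEG -/
def DegS : Prop := ∀ (F : Type) [Field F] (σ : Type) (n D : ℕ) (γ : σ → F[X])
  (B : Matrix σ (Fin n) F) (P : MvPolynomial σ F[X]), (∀ v, (γ v).natDegree ≤ 1) → DB D P →
  DB D (sbt γ (B.map C) P)

/-- LOCAL. Uses SUBC, CUBE, LEX. -/
def LocalS : Prop := ∀ (F : Type) [Field F] (V : Type) (n j : ℕ) (γ : V → F[X])
  (B : Matrix V (Fin n) F) (p : F) (I : Finset (Fin n)) (m : Fin n → Fin n → F)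
  (P : MvPolynomial V F[X]) (a : Fin n →₀ ℕ),
  (∀ i ∈ I, (∀ k < i, m i k = 0) ∧ m i i ≠ 0) →
  (∀ T ⊆ I, Ord j (sbt (fun v => γ v + (X - C p) * C (∑ i ∈ T, ∑ k, B v k * m i k))
    (B.map C) P)) →
  Low j (sbt γ (B.map C) P) a → (X - C p) ^ (∑ i ∈ I, a i) ∣ (sbt γ (B.map C) P).coeff a

/-- the data of the polynomial method: for every label `c` a line `γ c`, a basis `B c` of `F^V`
(columns; `Q c` is the inverse matrix) and, for every `p ∈ A`, vectors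
`B c * m c p i`, `i ∈ I c p`, spanning a cube of lines which meet over `p` -/
structure FlagD (F : Type) [Field F] (V ι : Type) [Fintype V] [DecidableEq V] (n : ℕ) where
  A : Finset F
  γ : ι → V → F[X]
  B : ι → Matrix V (Fin n) F
  Q : ι → Matrix (Fin n) V F
  I : ι → F → Finset (Fin n)
  m : ι → F → Fin n → Fin n → F
  deg : ∀ c v, (γ c v).natDegree ≤ 1
  QB : ∀ c, Q c * B c = 1
  BQ : ∀ c, B c * Q c = 1
  cube : ∀ c, ∀ p ∈ A, ∀ T ⊆ I c p, ∃ c', ∀ v,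
    γ c' v = γ c v + (X - C p) * C (∑ i ∈ T, ∑ k, B c v k * m c p i k)
  tri : ∀ c, ∀ p ∈ A, ∀ i ∈ I c p, (∀ k < i, m c p i k = 0) ∧ m c p i i ≠ 0

/-- the number of `p ∈ A` with `k ∈ I c p` -/
noncomputable def FlagD.bt {F : Type} [Field F] {V ι : Type} [Fintype V] [DecidableEq V] {n : ℕ}
    (d : FlagD F V ι n) (c : ι) (k : Fin n) : ℕ := (d.A.filter fun p => k ∈ d.I c p).card

/-- VAN. Uses LOCAL, SUBC, DEG. -/
def VanS : Prop := ∀ (F : Type) [Field F] (V ι : Type) [Fintype V] [DecidableEq V] [Nonempty ι]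
  (n D : ℕ) (d : FlagD F V ι n) (P : MvPolynomial V F[X]), DB D P →
  (∀ (c : ι) (a : Fin n →₀ ℕ) (e : ℕ), ∑ k, d.bt c k * a k ≤ e → e + a.degree ≤ D →
    ((sbt (d.γ c) ((d.B c).map C) P).coeff a).coeff e = 0) → P = 0

/-- DIM. Uses VAN. -/
def DimS : Prop := ∀ (F : Type) [Field F] (V ι : Type) [Fintype V] [DecidableEq V] [Fintype ι]
  [Nonempty ι] (n D : ℕ) (d : FlagD F V ι n),
  (AA n (fun _ => 0) D).card ≤ ∑ c, (AA n (d.bt c) D).card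

/-- COUNT -/
def CountS : Prop := ∀ (n : ℕ) (ι : Type) [Fintype ι] (β : ι → Fin n → ℕ),
  (∀ D, (AA n (fun _ => 0) D).card ≤ ∑ c, (AA n (β c) D).card) →
  1 ≤ ∑ c, ∏ k, (1 / (1 + (β c k : ℝ)))

/-! ### 2. Linear algebra: the frame of a colouring -/

/-- DUALF -/
def DualfS : Prop := ∀ (F : Type) [Field F] (K V : Type) [Fintype K] [Fintype V]
  (w : K → V → F) (Z : Finset K) (y : K → F), (∀ x ∈ Rel w Z, ∑ D, x D * y D = 0) →
  ∃ s : V → F, ∀ D, D ∉ Z → ∑ v, s v * w D v = y D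

/-- VTX -/
def VtxS : Prop := ∀ (F : Type) [Field F] (K V : Type) [Fintype K] [Fintype V] [DecidableEq V]
  (w : K → V → F) (S : Finset V) (Z : Finset K), (∀ v ∈ S, (inc w v).card = 3) →
  (∀ v, v ∉ S → inc w v = ∅) → (∀ D, ∃ v, w D v ≠ 0) →
  (∀ A ⊆ S, A.Nonempty → A ≠ S → ∃ u ∈ A, ∃ v ∈ S, v ∉ A ∧ ∃ D, w D u ≠ 0 ∧ w D v ≠ 0) →
  (∃ v ∈ S, inc w v ⊆ Z) → Rel w Z ≠ ⊥ →
  ∃ u ∈ S, ∃ D0 D1 D2 : K, D0 ≠ D1 ∧ D0 ≠ D2 ∧ D1 ≠ D2 ∧
    (∀ D, D ∈ inc w u ↔ D = D0 ∨ D = D1 ∨ D = D2) ∧ (∀ x ∈ Rel w Z, x D0 = 0) ∧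
    (∃ x ∈ Rel w Z, x D1 ≠ 0) ∧ ∃ x ∈ Rel w Z, x D2 ≠ 0

/-- DROP -/
def DropS : Prop := ∀ (F : Type) [Field F] (K V : Type) [Fintype K] [DecidableEq K]
  (w : K → V → F) (Z : Finset K) (u : V) (D0 D1 D2 : K), D0 ≠ D1 → D0 ≠ D2 → D1 ≠ D2 →
  (∀ D, D ∈ inc w u ↔ D = D0 ∨ D = D1 ∨ D = D2) → (∀ x ∈ Rel w Z, x D0 = 0) →
  (∃ x ∈ Rel w Z, x D1 ≠ 0) →
  Module.finrank F (Rel w (insert D1 (insert D2 Z))) + 1 = Module.finrank F (Rel w Z)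

/-- EXT -/
def ExtS : Prop := ∀ (F : Type) [Field F] (K V : Type) [Fintype K] [Fintype V] [DecidableEq V]
  (w : K → V → F) (m : ℕ) (s : ℕ → V → F) (i : K → ℕ), (∀ D, i D < m) →
  (∀ k < m, ∃ D, i D = k) →
  (∀ D, (∀ k < i D, ∑ v, s k v * w D v = 0) ∧ ∑ v, s (i D) v * w D v ≠ 0) →
  m ≤ Fintype.card V ∧ ∃ (B : Matrix V (Fin (Fintype.card V)) F)
    (Q : Matrix (Fin (Fintype.card V)) V F), Q * B = 1 ∧ B * Q = 1 ∧
    ∀ k : Fin (Fintype.card V), (k : ℕ) < m → Q k = s k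

/-- FRAME. Uses DUALF, VTX, DROP, EXT. -/
def FrameS : Prop := ∀ (F : Type) [Field F] (K V P : Type) [Fintype K] [DecidableEq K]
  [Fintype V] [DecidableEq V] (w : K → V → F) (pr : K → P) (S : Finset V),
  (∀ v ∈ S, (inc w v).card = 3) → (∀ v, v ∉ S → inc w v = ∅) → (∀ D, ∃ v, w D v ≠ 0) →
  (∀ D D' v, pr D = pr D' → w D v ≠ 0 → w D' v ≠ 0 → D = D') →
  (∀ A ⊆ S, A.Nonempty → A ≠ S → ∃ u ∈ A, ∃ v ∈ S, v ∉ A ∧ ∃ D, w D u ≠ 0 ∧ w D v ≠ 0) →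
  ∀ v0 ∈ S, ∃ (B : Matrix V (Fin (Fintype.card V)) F) (Q : Matrix (Fin (Fintype.card V)) V F)
    (i : K → Fin (Fintype.card V)), Q * B = 1 ∧ B * Q = 1 ∧
    (∀ D, (∀ k < i D, ∑ v, Q k v * w D v = 0) ∧ ∑ v, Q (i D) v * w D v ≠ 0) ∧
    (∀ D D', pr D = pr D' → i D = i D' → D = D') ∧
    ∏ k, (1 + ((univ.filter fun D => i D = k).card : ℝ)) =
      2 ^ Fintype.card K / 2 * (3 / 4) ^ Module.finrank F (Rel w (inc w v0))

/-! ### 3. Kempe components -/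

/-- KCOMP -/
def KcompS : Prop := ∀ (V : Type) [Fintype V] [DecidableEq V] (G : SimpleGraph V) (S : Finset V)
  (c : V → ℕ), c ∈ cols G S 4 →
  (∀ v ∈ S, (inc (fun x : KC G S c => wv ℝ x) v).card = 3) ∧
  (∀ v, v ∉ S → inc (fun x : KC G S c => wv ℝ x) v = ∅) ∧
  (∀ x : KC G S c, ∃ v, wv ℝ x v ≠ 0) ∧
  (∀ (x y : KC G S c) (v : V), x.1.1 = y.1.1 → wv ℝ x v ≠ 0 → wv ℝ y v ≠ 0 → x = y) ∧
  (∀ u ∈ S, ∀ v ∈ S, G.Adj u v → ∃ x : KC G S c, wv ℝ x u ≠ 0 ∧ wv ℝ x v ≠ 0)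

/-- SWITCH: Kempe changes -/
def SwitchS : Prop := ∀ (V : Type) [Fintype V] [DecidableEq V] (G : SimpleGraph V) (S : Finset V)
  (c : V → ℕ), c ∈ cols G S 4 → ∀ s ∈ prs, ∀ T : Finset (KC G S c), (∀ x ∈ T, x.1.1 = s) →
  ∃ c' ∈ cols G S 4, ∀ v, gam c' v = gam c v +
    (X - C (xs s.1 + xs s.2)) * C (∑ x ∈ T, (xs s.1 - xs s.2) * wv ℝ x v)

/-- KDIM: motions and Kempe components -/
def KdimS : Prop := ∀ (V : Type) [Fintype V] [DecidableEq V] (G : SimpleGraph V) (S : Finset V)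
  (c : V → ℕ), c ∈ cols G S 4 → D3 G S c = Fintype.card (KC G S c) ∧
  D2 G S c = Module.finrank ℝ (Rel (fun x : KC G S c => wv ℝ x) ∅)

/-- TRANS: translations. Uses KCOMP. -/
def TransS : Prop := ∀ (V : Type) [Fintype V] [DecidableEq V] (G : SimpleGraph V) (S : Finset V)
  (c : V → ℕ), c ∈ cols G S 4 → ∀ v ∈ S,
  Module.finrank ℝ (Rel (fun x : KC G S c => wv ℝ x) (inc (fun x : KC G S c => wv ℝ x) v)) + 2 ≤
    Module.finrank ℝ (Rel (fun x : KC G S c => wv ℝ x) ∅)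

/-- PSIM. Uses DIM, COUNT, FRAME, KCOMP, SWITCH, KDIM, TRANS. -/
def PsimS : Prop := ∀ (V : Type) [Fintype V] [DecidableEq V] (G : SimpleGraph V) (S : Finset V),
  Conn G S → (cols G S 4).Nonempty →
  (8 : ℝ) / 9 ≤ ∑ c ∈ cols G S 4, (4 / 3) ^ D2 G S c / 2 ^ D3 G S c

end Pool.Agent.Xu
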